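import Mathlib
import Pool.Agent.Lib.MP_aa5d6e_co.Gadget

/-!
# The strong fractional choice number can exceed the choice number

Definitions as in the problem file: choosability, the choice number and the strong fractional
choice number of a finite graph.  Theorem: there is a finite graph `G` with `ch(G) = 4` and
`ch_f^*(G) ≥ 21/5`.
-/

set_option autoImplicit false

namespace Pool.Agent.Results.MP_aa5d6e_co.ChoiceNumbers

open Finset

/-- An `a`-list assignment: every vertex gets a set of `a` colours (colours are natural numbers). -/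
def IsListAssignment {V : Type} (a : ℕ) (L : V → Finset ℕ) : Prop :=
  ∀ v, (L v).card = a

/-- A `b`-fold `L`-colouring: every vertex gets a `b`-element subset of its list, and adjacent
vertices get disjoint sets. -/
def IsFoldColouring {V : Type} (G : SimpleGraph V) (b : ℕ) (L φ : V → Finset ℕ) : Prop :=
  (∀ v, φ v ⊆ L v ∧ (φ v).card = b) ∧ ∀ u v, G.Adj u v → Disjoint (φ u) (φ v)

/-- `G` is `(a, b)`-choosable. -/
def Choosable {V : Type} (G : SimpleGraph V) (a b : ℕ) : Prop :=
  ∀ L : V → Finset ℕ, IsListAssignment a L → ∃ φ : V → Finset ℕ, IsFoldColouring G b L φ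

/-- The choice number `ch(G) = min {a : G is (a, 1)-choosable}`. -/
noncomputable def ch {V : Type} (G : SimpleGraph V) : ℕ :=
  sInf {a : ℕ | 1 ≤ a ∧ Choosable G a 1}

/-- `G` is strongly fractional `α`-choosable: it is `(⌈α m⌉, m)`-choosable for all `m ≥ 1`. -/
def StronglyFractionalChoosable {V : Type} (G : SimpleGraph V) (α : ℝ) : Prop :=
  ∀ m : ℕ, 1 ≤ m → Choosable G ⌈α * (m : ℝ)⌉₊ m

/-- The strong fractional choice number `ch_f^*(G) = inf {α > 0 : G is strongly fractional
α-choosable}`. -/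
noncomputable def chStrong {V : Type} (G : SimpleGraph V) : ℝ :=
  sInf {α : ℝ | 0 < α ∧ StronglyFractionalChoosable G α}

/-- Longer lists are not worse. -/
lemma Choosable.mono {V : Type} {G : SimpleGraph V} {a a' b : ℕ} (h : Choosable G a b)
    (haa : a ≤ a') : Choosable G a' b := by
  intro L hL
  have h1 : ∀ v, ∃ t ⊆ L v, t.card = a := fun v =>
    Finset.exists_subset_card_eq (by rw [hL v]; exact haa)
  choose L' hL' hc using h1
  obtain ⟨φ, hφ1, hφ2⟩ := h L' hc
  exact ⟨φ, fun v => ⟨(hφ1 v).1.trans (hL' v), (hφ1 v).2⟩, hφ2⟩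

/-- Every finite graph is `(|V| m, m)`-choosable (greedy colouring). -/
lemma choosable_greedy {V : Type} [Fintype V] (G : SimpleGraph V) (m : ℕ) :
    Choosable G (Fintype.card V * m) m := by
  classical
  intro L hL
  have key : ∀ s : Finset V, ∃ φ : V → Finset ℕ, (∀ v ∈ s, φ v ⊆ L v ∧ (φ v).card = m) ∧
      ∀ u ∈ s, ∀ v ∈ s, u ≠ v → Disjoint (φ u) (φ v) := by
    intro s
    induction s using Finset.induction_on with
    | empty => exact ⟨fun _ => ∅, by simp, by simp⟩
    | insert a s ha ih =>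
      obtain ⟨φ, h1, h2⟩ := ih
      have hcard : (s.biUnion φ).card ≤ s.card * m := by
        refine (Finset.card_biUnion_le).trans ?_
        rw [Finset.sum_congr rfl (fun v hv => (h1 v hv).2)]
        simp
      have hs : s.card + 1 ≤ Fintype.card V := by
        have := Finset.card_le_univ (insert a s)
        rwa [Finset.card_insert_of_notMem ha] at this
      have hle : m ≤ (L a \ s.biUnion φ).card := by
        have h3 := Finset.le_card_sdiff (s.biUnion φ) (L a)
        rw [hL a] at h3
        have h4 : (s.card + 1) * m ≤ Fintype.card V * m := Nat.mul_le_mul_right m hs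
        have h5 : (s.card + 1) * m = s.card * m + m := by ring
        omega
      obtain ⟨t, ht, htc⟩ := Finset.exists_subset_card_eq hle
      have htd : ∀ v ∈ s, Disjoint t (φ v) := by
        intro v hv
        rw [Finset.disjoint_left]
        intro x hx hx'
        have := ht hx
        rw [Finset.mem_sdiff] at this
        exact this.2 (Finset.mem_biUnion.mpr ⟨v, hv, hx'⟩)
      refine ⟨Function.update φ a t, ?_, ?_⟩
      · intro v hv
        rcases Finset.mem_insert.mp hv with rfl | hv'
        · rw [Function.update_self]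
          exact ⟨ht.trans Finset.sdiff_subset, htc⟩
        · have hne : v ≠ a := fun h => ha (h ▸ hv')
          rw [Function.update_of_ne hne]
          exact h1 v hv'
      · intro u hu v hv huv
        rcases Finset.mem_insert.mp hu with rfl | hu'
        · rcases Finset.mem_insert.mp hv with rfl | hv'
          · exact absurd rfl huv
          · rw [Function.update_self, Function.update_of_ne (Ne.symm huv)]
            exact htd v hv'
        · rcases Finset.mem_insert.mp hv with rfl | hv'
          · rw [Function.update_self, Function.update_of_ne huv]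
            exact (htd u hu').symm
          · have hne : u ≠ a := fun h => ha (h ▸ hu')
            have hne' : v ≠ a := fun h => ha (h ▸ hv')
            rw [Function.update_of_ne hne, Function.update_of_ne hne']
            exact h2 u hu' v hv' huv
  obtain ⟨φ, h1, h2⟩ := key Finset.univ
  exact ⟨φ, fun v => h1 v (Finset.mem_univ v), fun u v huv =>
    h2 u (Finset.mem_univ u) v (Finset.mem_univ v) huv.ne⟩

open Pool.Agent.Lib.MP_aa5d6e_co (I mem_I R_adj four_choosable L₀ card_L₀ no_five_fold)

/-- The graph of the counterexample is `(4, 1)`-choosable. -/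
lemma choosable_four : Choosable Pool.Agent.Lib.MP_aa5d6e_co.G 4 1 := by
  intro L hL
  obtain ⟨c, h1, h2⟩ := four_choosable L hL
  refine ⟨fun v => {c v}, fun v => ⟨by simpa using h1 v, by simp⟩, fun u v huv => ?_⟩
  simpa using h2 u v huv

/-- It is not `(a, 1)`-choosable for `a ≤ 3`: it contains an odd wheel. -/
lemma not_choosable_three : ¬ Choosable Pool.Agent.Lib.MP_aa5d6e_co.G 3 1 := by
  intro h
  obtain ⟨φ, h1, h2⟩ := h (fun _ => Finset.range 3) (fun _ => by simp)
  have hp : ((Finset.range 5, Finset.Ico 5 10) : Finset ℕ × Finset ℕ) ∈ I := by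
    rw [mem_I]
    refine ⟨⟨⟨?_, by simp⟩, ⟨?_, by simp⟩⟩, ?_⟩
    · intro x hx
      simp only [Finset.mem_range] at hx ⊢
      omega
    · intro x hx
      simp only [Finset.mem_range, Finset.mem_Ico] at hx ⊢
      omega
    · rw [Finset.disjoint_left]
      intro x hx hx'
      simp only [Finset.mem_range, Finset.mem_Ico] at hx hx'
      omega
  let p : {p // p ∈ I} := ⟨_, hp⟩
  have hex : ∀ i : Fin 6, ∃ c : ℕ, φ (Sum.inr (p, i)) = {c} ∧ c < 3 := by
    intro i
    obtain ⟨hs, hc⟩ := h1 (Sum.inr (p, i))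
    obtain ⟨c, hc'⟩ := Finset.card_eq_one.mp hc
    refine ⟨c, hc', ?_⟩
    have : c ∈ Finset.range 3 := hs (by rw [hc']; simp)
    simpa using this
  choose c hc hlt using hex
  have hne : ∀ i j : Fin 6, Pool.Agent.Lib.MP_aa5d6e_co.W i j → c i ≠ c j := by
    intro i j hij
    have hd := h2 _ _ (R_adj (u := Sum.inr (p, i)) (v := Sum.inr (p, j)) ⟨rfl, hij⟩)
    rw [hc i, hc j] at hd
    simpa using hd
  have w01 := hne 0 1 (Or.inl ⟨rfl, by decide⟩)
  have w02 := hne 0 2 (Or.inl ⟨rfl, by decide⟩)
  have w03 := hne 0 3 (Or.inl ⟨rfl, by decide⟩)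
  have w04 := hne 0 4 (Or.inl ⟨rfl, by decide⟩)
  have w05 := hne 0 5 (Or.inl ⟨rfl, by decide⟩)
  have w12 := hne 1 2 (Or.inr (Or.inl ⟨rfl, rfl⟩))
  have w23 := hne 2 3 (Or.inr (Or.inr (Or.inl ⟨rfl, rfl⟩)))
  have w34 := hne 3 4 (Or.inr (Or.inr (Or.inr (Or.inl ⟨rfl, rfl⟩))))
  have w45 := hne 4 5 (Or.inr (Or.inr (Or.inr (Or.inr (Or.inl ⟨rfl, rfl⟩)))))
  have w51 := hne 5 1 (Or.inr (Or.inr (Or.inr (Or.inr (Or.inr ⟨rfl, rfl⟩)))))
  have l0 := hlt 0
  have l1 := hlt 1
  have l2 := hlt 2
  have l3 := hlt 3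
  have l4 := hlt 4
  have l5 := hlt 5
  omega

/-- It is not `(21, 5)`-choosable. -/
lemma not_choosable_21_5 : ¬ Choosable Pool.Agent.Lib.MP_aa5d6e_co.G 21 5 := by
  intro h
  exact no_five_fold (h L₀ card_L₀)

/-- There is a finite graph `G` with `ch(G) = 4` and `ch_f^*(G) ≥ 21/5`; moreover the set whose
infimum is `ch_f^*(G)` is not empty, and all its elements are larger than `21/5`. -/
theorem result :
    ∃ (V : Type) (_ : Fintype V) (G : SimpleGraph V),
      ch G = 4 ∧ (21 / 5 : ℝ) ≤ chStrong G ∧ (ch G : ℝ) < chStrong G ∧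
      (∃ α : ℝ, 0 < α ∧ StronglyFractionalChoosable G α) ∧
      ∀ α : ℝ, StronglyFractionalChoosable G α → 21 / 5 < α := by
  classical
  have hch : ch Pool.Agent.Lib.MP_aa5d6e_co.G = 4 := by
    have hmem : 4 ∈ {a : ℕ | 1 ≤ a ∧ Choosable Pool.Agent.Lib.MP_aa5d6e_co.G a 1} :=
      ⟨by norm_num, choosable_four⟩
    apply le_antisymm
    · exact Nat.sInf_le hmem
    · refine le_csInf ⟨4, hmem⟩ ?_
      rintro a ⟨-, ha⟩
      by_contra hlt
      exact not_choosable_three (ha.mono (by omega))
  have hlarge : ∀ α : ℝ, StronglyFractionalChoosable Pool.Agent.Lib.MP_aa5d6e_co.G α →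
      21 / 5 < α := by
    intro α hα
    by_contra hle
    push Not at hle
    have h5 := hα 5 (by norm_num)
    have hc : ⌈α * ((5 : ℕ) : ℝ)⌉₊ ≤ 21 := by
      rw [Nat.ceil_le]
      push_cast
      linarith
    exact not_choosable_21_5 (h5.mono hc)
  have hex : ∃ α : ℝ, 0 < α ∧ StronglyFractionalChoosable Pool.Agent.Lib.MP_aa5d6e_co.G α := by
    refine ⟨(Fintype.card Pool.Agent.Lib.MP_aa5d6e_co.V : ℝ) + 1, by positivity, ?_⟩
    intro m hm
    apply (choosable_greedy Pool.Agent.Lib.MP_aa5d6e_co.G m).mono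
    have h1 : ((Fintype.card Pool.Agent.Lib.MP_aa5d6e_co.V * m : ℕ) : ℝ) ≤
        ((Fintype.card Pool.Agent.Lib.MP_aa5d6e_co.V : ℝ) + 1) * (m : ℝ) := by
      push_cast
      nlinarith [(Nat.cast_nonneg m : (0 : ℝ) ≤ m)]
    exact_mod_cast h1.trans (Nat.le_ceil _)
  have hinf : (21 / 5 : ℝ) ≤ chStrong Pool.Agent.Lib.MP_aa5d6e_co.G := by
    unfold chStrong
    apply le_csInf hex
    rintro α ⟨-, hα⟩
    exact (hlarge α hα).le
  refine ⟨Pool.Agent.Lib.MP_aa5d6e_co.V, inferInstance, Pool.Agent.Lib.MP_aa5d6e_co.G, hch, hinf,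
    ?_, hex, hlarge⟩
  rw [hch]
  push_cast
  linarith

end Pool.Agent.Results.MP_aa5d6e_co.ChoiceNumbers
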